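import Mathlib
import Pool.Agent.Helper36.ZF.Rep

/-!
# Cographs all of whose minimal zero forcing sets are minimum

Every finite graph without induced path on four vertices has a cotree, and for each of its
cotrees the graph is well-forced if and only if the recursive criterion `Cotree.crit` holds.
-/

namespace Pool.Agent.Results.MP_c84e8f_co.Cographs

open ZF36

theorem result {V : Type} [Fintype V] [Nonempty V] (G : SimpleGraph V) (hG : P4Free G) :
    (∃ b t, Nonempty (Cotree.graph b t ≃g G)) ∧
      ∀ b t, Nonempty (Cotree.graph b t ≃g G) → (WellForced G ↔ Cotree.crit b t) := by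
  refine ⟨rep G hG, ?_⟩
  rintro b t ⟨e⟩
  rw [← wellForced_iso e]
  exact Cotree.main b t

end Pool.Agent.Results.MP_c84e8f_co.Cographs
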