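import Mathlib
import Pool.Agent.Helper36.ZF.CoComp

/-!
# Well-forced graphs with disconnected complement

For an arbitrary finite graph whose complement is disconnected the question is reduced to its
co-components.
-/

namespace Pool.Agent.Results.MP_c84e8f_co.Joins

open ZF36

theorem result {V : Type} [Fintype V] (G : SimpleGraph V) (hG : ¬ Gᶜ.Preconnected)
    (D : Gᶜ.ConnectedComponent → ℕ)
    (hD : ∀ C, IsGreatest {n | ∃ W, QQ (co G C) W ∧ W.card + 1 = n} (D C)) (M : ℕ)
    (hM : IsGreatest (Set.range D) M) :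
    WellForced G ↔
      (∀ C, HomQ2 (co G C) M) ∧ (∀ C, ¬ One G C → HomN (co G C) M) ∧
      ∀ C C', C ≠ C' → (¬ One G C ∨ ¬ One G C') → ∀ x y,
        Gd (co G C) M x ∨ Gd (co G C') M y :=
  (cocomp_iff G hG D hD M hM).2

end Pool.Agent.Results.MP_c84e8f_co.Joins
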